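import Pool.Agent.TRS.Main

/-!
# Totally real solvable points on coverings of products of elliptic curves

`KK` is the set of the totally real algebraic numbers with solvable Galois group, the field
`ℚ_{tot,{∞}} ∩ ℚ_solv`.  Let `L` be a number field which is embedded by `ι` in this field, `A` the
product of `r` elliptic curves `y² = x³ + a x + b` over `L` and an affine space of dimension `n`,
and let `G 0, …, G (m-1)` be monic polynomials of degree at most four whose coefficients are
polynomials over `L` in the coordinates of `A`.  For each embedding `τ : L → ℝ` let a real point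
`p τ` of the conjugate of `A` be given at which all roots of all `G j` are real and simple.  Then
there is a point `P` of `A` with coordinates in `KK`, close to `p τ` in all embeddings `φ` of the
algebraic closure above `τ`, such that all roots of all `G j` at `P` lie in `KK`; under each `φ`
they come close to each real root of `G j` at `p τ`.
-/

open Polynomial
open Pool.Agent.TRS

namespace Pool.Agent.Results.MP_328ab2_nt.EllipticCovers

theorem result (L : Type) [Field L] [NumberField L] (ι : L →+* Qbar) (hL : ∀ w, ι w ∈ KK)
    (r n m : ℕ) (D : Cov L r n m) (p : (L →+* ℝ) → Idx r n → ℝ)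
    (hp : ∀ τ, On D τ (p τ)) (hr : ∀ τ, RealFib D τ (p τ)) (ε : ℝ) (hε : 0 < ε) :
    ∃ P : Idx r n → Qbar, On D ι P ∧ (∀ k, P k ∈ KK) ∧
      (∀ j Z, (Fib D ι P j).IsRoot Z → Z ∈ KK) ∧
      ∀ (τ : L →+* ℝ) (φ : Qbar →+* ℂ), Ext ι τ φ → (∀ k, ‖φ (P k) - p τ k‖ < ε) ∧
        ∀ (j : Fin m) (ρ : ℝ), (Fib D τ (p τ) j).IsRoot ρ →
          ∃ Z, (Fib D ι P j).IsRoot Z ∧ ‖φ Z - ρ‖ < ε :=
  main L ι hL r n m D p hp hr ε hε

end Pool.Agent.Results.MP_328ab2_nt.EllipticCovers
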